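import Mathlib

set_option autoImplicit false

namespace Pool.Agent.H459Z.Rev

variable {V : Type}

/-- `uv` is an arc of the closed sequence `c = [c₀, …, c_{n-1}]`, whose arcs are `c₀c₁, …, c_{n-1}c₀`. -/
def CycArc (c : List V) (u v : V) : Prop := (u, v) ∈ c.zip (c.rotate 1)

/-- `c` lists the distinct vertices of a directed cycle of the digraph `F`. -/
def IsDicycle (F : V → V → Prop) (c : List V) : Prop :=
  c ≠ [] ∧ c.Nodup ∧ ∀ u v, CycArc c u v → F u v

/-- The digraph obtained from `F` by reversing the arcs of the cycle `c`. -/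
def rev (F : V → V → Prop) (c : List V) (u v : V) : Prop :=
  (F u v ∧ ¬ CycArc c u v) ∨ CycArc c v u

/-- `RS D C ζ F`: the sequence of cycles `(C i)_{i < ζ}` is a reversal sequence of `D` and the result
of applying it to `D` is `F`. -/
inductive RS (D : V → V → Prop) (C : Ordinal.{0} → List V) :
    Ordinal.{0} → (V → V → Prop) → Prop
  | nil : RS D C 0 D
  | snoc {ζ : Ordinal.{0}} {F : V → V → Prop} :
      RS D C ζ F → IsDicycle F (C ζ) → RS D C (ζ + 1) (rev F (C ζ))
  | lim (κ : Ordinal.{0}) (len : Ordinal.{0} → Ordinal.{0}) (E : Ordinal.{0} → V → V → Prop)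
      (η : Ordinal.{0}) (F : V → V → Prop) :
      0 < κ → (∀ ξ, ξ < κ → RS D C (len ξ) (E ξ)) → MonotoneOn len (Set.Iio κ) →
      IsLUB (len '' Set.Iio κ) η →
      (∀ u v, {i | i < η ∧ (CycArc (C i) u v ∨ CycArc (C i) v u)}.Finite) →
      (∀ u v, ∃ ξ₀, ξ₀ < κ ∧ ∀ ξ, ξ₀ ≤ ξ → ξ < κ → (E ξ u v ↔ F u v)) →
      RS D C η F

end Pool.Agent.H459Z.Rev
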