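import Pool.Agent.H459Z.Rev.Defs

set_option autoImplicit false

namespace Pool.Agent.H459Z.Rev

open Classical

variable {V : Type}

/-- Flow of `g` along the arcs of `F` inside `B`. -/
noncomputable def flow (F : V → V → Prop) (g : V → ℤ) (B : Finset V) : ℤ :=
  ∑ p ∈ B ×ˢ B, if F p.1 p.2 then g p.2 - g p.1 else 0

/-- All edges on which `g` is not constant lie in `B`. -/
def Loc (D : V → V → Prop) (g : V → ℤ) (B : Finset V) : Prop :=
  ∀ u v, (D u v ∨ D v u) → g u ≠ g v → u ∈ B ∧ v ∈ B

structure Inv (D F : V → V → Prop) : Prop where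
  und : ∀ u v, (F u v ∨ F v u) ↔ (D u v ∨ D v u)
  ori : ∀ u v, F u v → ¬ F v u
  bal : ∀ g B, Loc D g B → flow F g B = 0

theorem flow_mono {D F : V → V → Prop} (h : ∀ u v, F u v → (D u v ∨ D v u)) {g : V → ℤ}
    {B B' : Finset V} (hB : Loc D g B) (hs : B ⊆ B') : flow F g B' = flow F g B := by
  unfold flow
  symm
  apply Finset.sum_subset (Finset.product_subset_product hs hs)
  intro p _ hp
  split_ifs with hF
  · by_contra hne
    have := hB p.1 p.2 (h _ _ hF) (fun e => hne (by rw [e, sub_self]))
    exact hp (Finset.mem_product.2 this)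
  · rfl

theorem cyc_mem {c : List V} {u v : V} (h : CycArc c u v) : u ∈ c ∧ v ∈ c := by
  have := List.of_mem_zip h
  exact ⟨this.1, List.mem_rotate.1 this.2⟩

theorem flow_cyc {c : List V} (hc : c.Nodup) (g : V → ℤ) {B : Finset V} (hB : ∀ u ∈ c, u ∈ B) :
    flow (CycArc c) g B = 0 := by
  unfold flow
  have hlen : c.length = (c.rotate 1).length := (List.length_rotate c 1).symm
  have h1 : (c.zip (c.rotate 1)).map Prod.fst = c := List.map_fst_zip hlen.le
  have h2 : (c.zip (c.rotate 1)).map Prod.snd = c.rotate 1 := List.map_snd_zip hlen.ge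
  have hnd : (c.zip (c.rotate 1)).Nodup := by
    apply List.Nodup.of_map Prod.fst
    rw [h1]; exact hc
  rw [← Finset.sum_filter]
  have : (B ×ˢ B).filter (fun p => CycArc c p.1 p.2) = (c.zip (c.rotate 1)).toFinset := by
    ext p
    simp only [Finset.mem_filter, Finset.mem_product, List.mem_toFinset]
    constructor
    · exact fun h => h.2
    · intro h
      have := cyc_mem (c := c) (u := p.1) (v := p.2) h
      exact ⟨⟨hB _ this.1, hB _ this.2⟩, h⟩
  rw [this, Finset.sum_sub_distrib, List.sum_toFinset _ hnd, List.sum_toFinset _ hnd]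
  have e1 : (c.zip (c.rotate 1)).map (fun p => g p.2) = (c.rotate 1).map g := by
    rw [← h2, List.map_map, h2]; rfl
  have e2 : (c.zip (c.rotate 1)).map (fun p => g p.1) = c.map g := by
    conv_rhs => rw [← h1, List.map_map]
    rfl
  rw [e1, e2, ((List.rotate_perm c 1).map g).sum_eq, sub_self]

theorem Inv.rev {D F : V → V → Prop} (h : Inv D F) {c : List V} (hc : IsDicycle F c) :
    Inv D (rev F c) := by
  obtain ⟨-, hnd, harc⟩ := hc
  have und : ∀ u v, (Rev.rev F c u v ∨ Rev.rev F c v u) ↔ (D u v ∨ D v u) := by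
    intro u v
    rw [← h.und]
    have := harc u v
    have := harc v u
    unfold Rev.rev
    tauto
  refine ⟨und, ?_, ?_⟩
  · intro u v
    have := harc u v
    have := harc v u
    have := h.ori u v
    unfold Rev.rev
    tauto
  · intro g B hB
    have hs : B ⊆ B ∪ c.toFinset := Finset.subset_union_left
    rw [← flow_mono (fun u v e => (und u v).1 (Or.inl e)) hB hs]
    have h0 : flow F g (B ∪ c.toFinset) = 0 := by
      rw [flow_mono (fun u v e => (h.und u v).1 (Or.inl e)) hB hs]; exact h.bal g B hB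
    have h1 : flow (CycArc c) g (B ∪ c.toFinset) = 0 :=
      flow_cyc hnd g (fun u hu => Finset.mem_union_right _ (List.mem_toFinset.2 hu))
    have h2 : flow (CycArc c) (fun x => -g x) (B ∪ c.toFinset) = 0 :=
      flow_cyc hnd _ (fun u hu => Finset.mem_union_right _ (List.mem_toFinset.2 hu))
    have h3 : ∑ p ∈ (B ∪ c.toFinset) ×ˢ (B ∪ c.toFinset),
        (if CycArc c p.2 p.1 then g p.2 - g p.1 else 0) = 0 := by
      refine Eq.trans ?_ h2
      unfold flow
      rw [Finset.sum_product, Finset.sum_product, Finset.sum_comm]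
      refine Finset.sum_congr rfl fun x _ => Finset.sum_congr rfl fun y _ => ?_
      split_ifs
      · ring
      · rfl
    have : flow (Rev.rev F c) g (B ∪ c.toFinset) = flow F g (B ∪ c.toFinset)
        - flow (CycArc c) g (B ∪ c.toFinset) + ∑ p ∈ (B ∪ c.toFinset) ×ˢ (B ∪ c.toFinset),
        (if CycArc c p.2 p.1 then g p.2 - g p.1 else 0) := by
      unfold flow
      rw [← Finset.sum_sub_distrib, ← Finset.sum_add_distrib]
      refine Finset.sum_congr rfl fun p _ => ?_
      have a1 := harc p.1 p.2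
      have a2 := harc p.2 p.1
      have a3 := h.ori p.1 p.2
      unfold Rev.rev
      by_cases q1 : F p.1 p.2 <;> by_cases q2 : CycArc c p.1 p.2 <;>
        by_cases q3 : CycArc c p.2 p.1 <;> simp_all
    rw [this, h0, h1, h3]; rfl

theorem RS.inv {D : V → V → Prop} (hD : Inv D D) {C : Ordinal.{0} → List V} {ζ : Ordinal.{0}}
    {F : V → V → Prop} (h : RS D C ζ F) : Inv D F := by
  induction h with
  | nil => exact hD
  | snoc _ hc ih => exact ih.rev hc
  | lim κ len E η F hκ _ _ _ _ hlim ih =>
    have key : ∀ T : Finset (V × V), ∃ ξ₀, ξ₀ < κ ∧ ∀ ξ, ξ₀ ≤ ξ → ξ < κ →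
        ∀ p ∈ T, (E ξ p.1 p.2 ↔ F p.1 p.2) := by
      intro T
      induction T using Finset.induction_on with
      | empty => exact ⟨0, hκ, fun _ _ _ p hp => absurd hp (Finset.notMem_empty p)⟩
      | insert a T _ ihT =>
        obtain ⟨x, hx, hx'⟩ := ihT
        obtain ⟨y, hy, hy'⟩ := hlim a.1 a.2
        refine ⟨max x y, max_lt hx hy, fun ξ h1 h2 p hp => ?_⟩
        rcases Finset.mem_insert.1 hp with rfl | hp
        · exact hy' ξ ((le_max_right _ _).trans h1) h2
        · exact hx' ξ ((le_max_left _ _).trans h1) h2 p hp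
    have two : ∀ u v, ∃ ξ, ξ < κ ∧ (E ξ u v ↔ F u v) ∧ (E ξ v u ↔ F v u) := by
      intro u v
      obtain ⟨x, hx, hx'⟩ := key {(u, v), (v, u)}
      exact ⟨x, hx, hx' x le_rfl hx (u, v) (by simp), hx' x le_rfl hx (v, u) (by simp)⟩
    refine ⟨?_, ?_, ?_⟩
    · intro u v
      obtain ⟨x, hx, h1, h2⟩ := two u v
      rw [← h1, ← h2]; exact (ih x hx).und u v
    · intro u v
      obtain ⟨x, hx, h1, h2⟩ := two u v
      rw [← h1, ← h2]; exact (ih x hx).ori u v
    · intro g B hB
      obtain ⟨x, hx, hx'⟩ := key (B ×ˢ B)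
      rw [← (ih x hx).bal g B hB]
      unfold flow
      refine Finset.sum_congr rfl fun p hp => ?_
      simp only [hx' x le_rfl hx p hp]

theorem exists_step (A : Set ℤ) {u v : ℤ} (hu : u ∈ A) (hv : v ∉ A) :
    ∃ i, ¬ (i ∈ A ↔ i + 1 ∈ A) := by
  by_contra h
  push Not at h
  have : ∀ i, i ∈ A ↔ (0 : ℤ) ∈ A := by
    intro i
    induction i using Int.induction_on with
    | zero => rfl
    | succ n ih => rw [← h]; exact ih
    | pred n ih => rw [h]; simpa using ih
  exact hv ((this v).2 ((this u).1 hu))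

/-- A balanced orientation of a graph on the integers containing the path and with edges of bounded
length is strong. -/
theorem strong_of_inv {D F : ℤ → ℤ → Prop} (N : ℕ) (h1 : ∀ i, D i (i + 1))
    (hN : ∀ u v, D u v → |u - v| ≤ N) (h : Inv D F) (u v : ℤ) : Relation.ReflTransGen F u v := by
  by_contra hv
  set A : Set ℤ := {w | Relation.ReflTransGen F u w} with hA
  have hcl : ∀ x y, x ∈ A → F x y → y ∈ A := fun x y hx hxy => Relation.ReflTransGen.tail hx hxy
  have hNF : ∀ x y, (D x y ∨ D y x) → |x - y| ≤ N := by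
    rintro x y (e | e)
    · exact hN _ _ e
    · rw [abs_sub_comm]; exact hN _ _ e
  set T : Set (ℤ × ℤ) := {p | F p.1 p.2 ∧ p.1 ∉ A ∧ p.2 ∈ A} with hT
  have hbound : ∀ T₀ : Finset (ℤ × ℤ), (↑T₀ : Set (ℤ × ℤ)) ⊆ T → T₀.card ≤ 2 * (N + 1) ^ 2 := by
    intro T₀ hT₀
    obtain ⟨j, hj⟩ : ∃ j : ℕ, ∀ p ∈ T₀, |p.1| ≤ j ∧ |p.2| ≤ j := by
      obtain ⟨j, hj⟩ := (T₀.image (fun p => p.1.natAbs + p.2.natAbs)).bddAbove
      refine ⟨j, fun p hp => ?_⟩
      have := hj (Finset.mem_coe.2 (Finset.mem_image_of_mem _ hp))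
      constructor <;> rw [Int.abs_eq_natAbs] <;> omega
    set g : ℤ → ℤ := fun x => if x ∈ A ∧ |x| ≤ j then 1 else 0 with hg
    set B : Finset ℤ := Finset.Icc (-(j : ℤ) - N) (j + N) with hB
    have hloc : Loc D g B := by
      intro x y hxy hne
      have hd := abs_le.1 (hNF x y hxy)
      have : |x| ≤ j ∨ |y| ≤ j := by
        by_contra hc
        push Not at hc
        apply hne
        simp only [hg, not_le.2 hc.1, not_le.2 hc.2, and_false, if_false]
      simp only [hB, Finset.mem_Icc]
      rcases this with e | e <;> have := abs_le.1 e <;> omega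
    set Bad : Finset (ℤ × ℤ) := (Finset.Icc ((j : ℤ) - N) j ×ˢ Finset.Icc (j : ℤ) (j + N)) ∪
      (Finset.Icc (-(j : ℤ)) (-j + N) ×ˢ Finset.Icc (-(j : ℤ) - N) (-j)) with hBad
    have hcard : Bad.card ≤ 2 * (N + 1) ^ 2 := by
      refine (Finset.card_union_le _ _).trans ?_
      simp only [Finset.card_product, Int.card_Icc]
      have e1 : ((j : ℤ) + 1 - (j - N)).toNat = N + 1 := by omega
      have e2 : ((j : ℤ) + N + 1 - j).toNat = N + 1 := by omega
      have e3 : (-(j : ℤ) + N + 1 - -j).toNat = N + 1 := by omega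
      have e4 : (-(j : ℤ) + 1 - (-j - N)).toNat = N + 1 := by omega
      rw [e1, e2, e3, e4]; nlinarith
    have h0 := h.bal g B hloc
    have hle : ∑ p ∈ B ×ˢ B, ((if p ∈ T₀ then (1 : ℤ) else 0) - (if p ∈ Bad then 1 else 0))
        ≤ flow F g B := by
      unfold flow
      refine Finset.sum_le_sum fun p _ => ?_
      by_cases q1 : p ∈ T₀
      · obtain ⟨a1, a2, a3⟩ := hT₀ (Finset.mem_coe.2 q1)
        simp only [q1, if_true, a1, hg, a2, a3, (hj p q1).2, false_and, if_false, and_self]
        split_ifs <;> norm_num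
      · simp only [q1, if_false, zero_sub]
        by_cases q2 : F p.1 p.2
        · simp only [q2, if_true, hg]
          by_cases q3 : p.1 ∈ A ∧ |p.1| ≤ j
          · by_cases q4 : |p.2| ≤ j
            · simp only [q3, hcl _ _ q3.1 q2, q4, and_self, if_true]
              split_ifs <;> norm_num
            · have hd := abs_le.1 (hNF _ _ ((h.und _ _).1 (Or.inl q2)))
              have := abs_le.1 q3.2
              have q5 : p ∈ Bad := by
                simp only [hBad, Finset.mem_union, Finset.mem_product, Finset.mem_Icc]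
                rw [abs_le] at q4
                omega
              simp only [q5, q3, q4, if_true, and_false, if_false, and_self]
              norm_num
          · simp only [q3, if_false]
            split_ifs <;> norm_num
        · simp only [q2, if_false]
          split_ifs <;> norm_num
    rw [h0, Finset.sum_sub_distrib, Finset.sum_boole, Finset.sum_boole] at hle
    have s1 : T₀ ⊆ (B ×ˢ B).filter (fun p => p ∈ T₀) := by
      intro p hp
      have := hj p hp
      rw [abs_le, abs_le] at this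
      simp only [Finset.mem_filter, Finset.mem_product, hB, Finset.mem_Icc, hp, and_true]
      omega
    have s2 : (B ×ˢ B).filter (fun p => p ∈ Bad) ⊆ Bad := fun p hp => (Finset.mem_filter.1 hp).2
    have c1 := Finset.card_le_card s1
    have c2 := Finset.card_le_card s2
    omega
  have hfin : T.Finite := by
    by_contra hinf
    obtain ⟨T₀, h1, h2⟩ := Set.Infinite.exists_subset_card_eq hinf (2 * (N + 1) ^ 2 + 1)
    have := hbound T₀ h1
    omega
  set g : ℤ → ℤ := fun x => if x ∈ A then 1 else 0 with hg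
  set B : Finset ℤ := hfin.toFinset.image Prod.fst ∪ hfin.toFinset.image Prod.snd with hB
  have hmem : ∀ p ∈ T, p.1 ∈ B ∧ p.2 ∈ B := fun p hp =>
    ⟨Finset.mem_union_left _ (Finset.mem_image_of_mem _ (hfin.mem_toFinset.2 hp)),
      Finset.mem_union_right _ (Finset.mem_image_of_mem _ (hfin.mem_toFinset.2 hp))⟩
  have hcross : ∀ x y, (D x y ∨ D y x) → ¬ (x ∈ A ↔ y ∈ A) → (x, y) ∈ T ∨ (y, x) ∈ T := by
    intro x y hxy hne
    have := (h.und x y).2 hxy
    have := hcl x y
    have := hcl y x
    simp only [hT, Set.mem_ofPred_eq]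
    tauto
  have hloc : Loc D g B := by
    intro x y hxy hne
    have : ¬ (x ∈ A ↔ y ∈ A) := fun e => hne (by simp only [hg, e])
    rcases hcross x y hxy this with e | e
    · exact hmem _ e
    · exact (hmem _ e).symm
  have h0 := h.bal g B hloc
  obtain ⟨i, hi⟩ := exists_step A (u := u) (v := v) Relation.ReflTransGen.refl hv
  obtain ⟨p, hp⟩ : ∃ p, p ∈ T := by
    rcases hcross i (i + 1) (Or.inl (h1 i)) hi with e | e <;> exact ⟨_, e⟩
  unfold flow at h0
  rw [Finset.sum_eq_zero_iff_of_nonneg] at h0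
  · have := h0 p (Finset.mem_product.2 (hmem p hp))
    obtain ⟨a1, a2, a3⟩ := hp
    simp [a1, hg, a2, a3] at this
  · intro q _
    by_cases e : F q.1 q.2
    · simp only [e, if_true, hg]
      by_cases a : q.1 ∈ A
      · simp [a, hcl _ _ a e]
      · by_cases b : q.2 ∈ A <;> simp [a, b]
    · simp [e]

/-- Cayley digraphs of the integers with connection set of sum zero are balanced. -/
theorem cayley_inv (S : Finset ℤ) (h1 : (1 : ℤ) ∈ S) (hneg : ∀ s ∈ S, -s ∉ S)
    (hsum : ∑ s ∈ S, s = 0) : Inv (fun u v : ℤ => v - u ∈ S) (fun u v : ℤ => v - u ∈ S) := by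
  refine ⟨fun _ _ => Iff.rfl, fun u v e e' => hneg _ e (by simpa using e'), ?_⟩
  intro g B hB
  have hsupp : ∀ s ∈ S, Function.support (fun x => g (x + s) - g x) ⊆ ↑B := by
    intro s hs x hx
    have hx' : g (x + s) - g x ≠ 0 := hx
    exact (hB x (x + s) (Or.inl (by simpa using hs)) (fun e => hx' (by rw [e, sub_self]))).1
  have hshift : ∀ (s t : ℤ), (Function.support (fun x => g (x + s) - g x)).Finite →
      (Function.support (fun x => g (x + t + s) - g (x + t))).Finite := by
    intro s t h
    exact h.preimage (f := fun x => x + t) (add_left_injective t).injOn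
  have hf1 : (Function.support (fun x => g (x + 1) - g x)).Finite :=
    B.finite_toSet.subset (hsupp 1 h1)
  set δ : ℤ := ∑ᶠ x, (g (x + 1) - g x) with hδ
  have hsh : ∀ t : ℤ, ∑ᶠ x, (g (x + t + 1) - g (x + t)) = δ := by
    intro t
    exact finsum_comp_equiv (Equiv.addRight t) (f := fun x => g (x + 1) - g x)
  have hall : ∀ s : ℤ, (Function.support (fun x => g (x + s) - g x)).Finite ∧
      ∑ᶠ x, (g (x + s) - g x) = s * δ := by
    intro s
    induction s using Int.induction_on with
    | zero => simp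
    | succ n ih =>
      have e : (fun x => g (x + (n + 1)) - g x) =
          fun x => (g (x + n + 1) - g (x + n)) + (g (x + n) - g x) := by
        funext x; rw [add_assoc]; ring
      rw [e]
      refine ⟨((hshift 1 n hf1).union ih.1).subset (Function.support_add _ _), ?_⟩
      rw [finsum_add_distrib (hshift 1 n hf1) ih.1, hsh, ih.2]; ring
    | pred n ih =>
      have e : (fun x => g (x + (-n - 1)) - g x) =
          fun x => (g (x + -n) - g x) - (g (x + (-n - 1) + 1) - g (x + (-n - 1))) := by
        funext x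
        have : x + (-(n : ℤ) - 1) + 1 = x + -n := by ring
        rw [this]; ring
      rw [e]
      refine ⟨(ih.1.union (hshift 1 _ hf1)).subset (Function.support_sub _ _), ?_⟩
      rw [finsum_sub_distrib ih.1 (hshift 1 _ hf1), hsh, ih.2]; ring
  have hrow : ∀ x, ∑ y ∈ B, (if y - x ∈ S then g y - g x else 0) = ∑ s ∈ S, (g (x + s) - g x) := by
    intro x
    rw [← Finset.sum_filter]
    have e1 : ∑ s ∈ S, (g (x + s) - g x) = ∑ y ∈ S.image (fun s => x + s), (g y - g x) := by
      rw [Finset.sum_image (fun a _ b _ e => add_left_cancel e)]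
    rw [e1]
    apply Finset.sum_subset
    · intro y hy
      exact Finset.mem_image.2 ⟨y - x, (Finset.mem_filter.1 hy).2, by ring⟩
    · intro y hy hy'
      obtain ⟨s, hs, rfl⟩ := Finset.mem_image.1 hy
      by_contra hne
      have := hB x (x + s) (Or.inl (by simpa using hs)) (fun e => hne (by rw [e, sub_self]))
      exact hy' (Finset.mem_filter.2 ⟨this.2, by simpa using hs⟩)
  unfold flow
  rw [Finset.sum_product]
  have e2 : ∑ x ∈ B, ∑ s ∈ S, (g (x + s) - g x) = 0 := by
    rw [Finset.sum_comm]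
    have : ∀ s ∈ S, ∑ x ∈ B, (g (x + s) - g x) = s * δ := by
      intro s hs
      rw [← (hall s).2, finsum_eq_sum_of_support_subset _ (hsupp s hs)]
    rw [Finset.sum_congr rfl this, ← Finset.sum_mul, hsum, zero_mul]
  rw [← e2]
  refine Finset.sum_congr rfl fun x _ => ?_
  rw [← hrow x]
  refine Finset.sum_congr rfl fun y _ => ?_
  congr

end Pool.Agent.H459Z.Rev
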